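import Pool.Agent.Y449.MS.StmA

/-!
Project MS (helper449), job M3: solvable linear groups in dimension at least two are virtually
reducible.
-/

set_option autoImplicit false

namespace Pool.Agent.Y756.MS.M3

open Pool.Agent.Y449.MS

theorem main (h : S_M2) : S_M3 := by
  intro G V _ _ _ _ ρ hs h2
  classical
  by_cases hsc : ∀ g : G, ∃ c : ℂ, ∀ v, ρ g v = c • v
  · have hnt : Nontrivial V := Module.nontrivial_of_finrank_pos (R := ℂ) (by omega)
    obtain ⟨v, hv⟩ := exists_ne (0 : V)
    refine ⟨⊤, Submodule.span ℂ {v}, inferInstance, ?_, ?_, ?_⟩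
    · rw [Ne, Submodule.span_singleton_eq_bot]
      exact hv
    · intro ht
      have h3 := finrank_span_singleton (K := ℂ) hv
      rw [ht, finrank_top] at h3
      omega
    · intro g _ w hw
      obtain ⟨c, hc⟩ := hsc g
      rw [hc]
      exact Submodule.smul_mem _ _ hw
  · obtain ⟨m, hm⟩ := hs.solvable
    have hP : ∃ n : ℕ, ∀ g ∈ derivedSeries G n, ∃ c : ℂ, ∀ v, ρ g v = c • v := by
      refine ⟨m, fun g hg => ⟨1, fun v => ?_⟩⟩
      rw [hm, Subgroup.mem_bot] at hg
      rw [hg, map_one, one_smul]
      rfl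
    obtain ⟨j, hj⟩ : ∃ j, Nat.find hP = j + 1 := by
      refine Nat.exists_eq_succ_of_ne_zero fun h0 => hsc fun g => ?_
      have h3 := Nat.find_spec hP
      rw [h0] at h3
      exact h3 g (by rw [derivedSeries_zero]; exact Subgroup.mem_top g)
    have h3 := Nat.find_spec hP
    rw [hj] at h3
    have h4 := Nat.find_min hP (m := j) (by omega)
    push Not at h4
    apply h G V ρ (derivedSeries G j) inferInstance
    · intro a ha b hb
      apply h3
      rw [derivedSeries_succ]
      exact Subgroup.commutator_mem_commutator ha hb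
    · obtain ⟨g, hg, hg2⟩ := h4
      exact ⟨g, hg, hg2⟩

end Pool.Agent.Y756.MS.M3
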